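import Pool.Agent.Helper72.OR.LV

/-!
# OR: linear forms in the levels at two points
-/

set_option autoImplicit false
open MeasureTheory Set Filter Topology
open Pool.Agent.Helper93.UG (zc sp)
open Pool.Agent.Helper57.TX (QX DP rs)
open Pool.Agent.Helper57.NS (cnt)
open Pool.Agent.Helper62.OP (DC Xo Pp Nt rho Ms pr Rng)
open Pool.Agent.Helper93.OR
open Pool.Agent.Helper93.NS (mem_QX)

namespace Pool.Agent.Helper72.OR

/-- the coefficients of the field at the height `x` -/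
noncomputable def wsh (n : ℕ) (T L x : ℝ) (p : ℕ) : ℂ :=
  w0 n T L p * Complex.exp (-((x * sp T * Real.log p : ℝ) : ℂ) * Complex.I)

lemma DC_shift (n : ℕ) (T L x t : ℝ) {Q : Finset ℕ} (hQ : ∀ p ∈ Q, p.Prime) :
    DC Q (w0 n T L) (t + x * sp T) = DC Q (wsh n T L x) t := by
  unfold DC
  refine Finset.sum_congr rfl fun p hp => ?_
  have hp0 : (p : ℂ) ≠ 0 := by exact_mod_cast (hQ p hp).ne_zero
  unfold wsh
  have h1 : (p : ℂ) ^ (-((1 / 2 : ℂ) + ((t + x * sp T : ℝ) : ℂ) * Complex.I)) =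
      Complex.exp (-((x * sp T * Real.log p : ℝ) : ℂ) * Complex.I) * (p : ℂ) ^ (-((1 / 2 : ℂ) + (t : ℂ) * Complex.I)) := by
    rw [Complex.cpow_def_of_ne_zero hp0, Complex.cpow_def_of_ne_zero hp0, ← Complex.exp_add, ← Complex.natCast_log]
    congr 1
    push_cast
    ring
  rw [h1]
  ring

lemma norm_form (n : ℕ) (T L x y a b : ℝ) (p : ℕ) : ‖(a : ℂ) * wsh n T L x p + (b : ℂ) * wsh n T L y p‖ ^ 2 =
    ‖w0 n T L p‖ ^ 2 * (a ^ 2 + b ^ 2 + 2 * a * b * Real.cos ((x - y) * sp T * Real.log p)) := by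
  obtain ⟨α, hα⟩ : ∃ α, α = x * sp T * Real.log p := ⟨_, rfl⟩
  obtain ⟨β, hβ⟩ : ∃ β, β = y * sp T * Real.log p := ⟨_, rfl⟩
  have e0 : (x - y) * sp T * Real.log p = α - β := by rw [hα, hβ]; ring
  unfold wsh
  rw [e0, ← hα, ← hβ]
  have h1 : (a : ℂ) * (w0 n T L p * Complex.exp (-(α : ℂ) * Complex.I)) +
      (b : ℂ) * (w0 n T L p * Complex.exp (-(β : ℂ) * Complex.I)) = w0 n T L p * ((a : ℂ) * Complex.exp (-(α : ℂ) * Complex.I) +
        (b : ℂ) * Complex.exp (-(β : ℂ) * Complex.I)) := by ring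
  rw [h1, norm_mul, mul_pow]
  congr 1
  rw [← Complex.normSq_eq_norm_sq, Complex.normSq_apply]
  have h2 : ∀ γ : ℝ, Complex.exp (-(γ : ℂ) * Complex.I) = ((Real.cos γ : ℝ) : ℂ) - ((Real.sin γ : ℝ) : ℂ) * Complex.I := by
    intro γ
    rw [show -(γ : ℂ) * Complex.I = ((-γ : ℝ) : ℂ) * Complex.I by push_cast; ring, Complex.exp_mul_I, ← Complex.ofReal_cos,
      ← Complex.ofReal_sin, Real.cos_neg, Real.sin_neg]
    push_cast
    ring
  rw [h2 α, h2 β, Real.cos_sub]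
  simp only [Complex.add_re, Complex.mul_re, Complex.ofReal_re, Complex.ofReal_im, Complex.sub_re, Complex.mul_im, Complex.I_re,
    Complex.I_im, Complex.add_im, Complex.sub_im, zero_mul, mul_zero, sub_zero, add_zero, mul_one, zero_sub]
  have s1 := Real.sin_sq_add_cos_sq α
  have s2 := Real.sin_sq_add_cos_sq β
  linear_combination a ^ 2 * s1 + b ^ 2 * s2

lemma An_mono {n q : ℕ} {T L : ℝ} (hT : 0 ≤ Real.log T) (hL : 1 ≤ L) {i j : ℕ} (h : i ≤ j) : An n q T L i ≤ An n q T L j := by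
  unfold An
  apply mul_le_mul_of_nonneg_left _ hT
  apply Real.rpow_le_rpow_of_exponent_le hL
  have h1 : (i : ℝ) ≤ j := by exact_mod_cast h
  have : (i:ℝ) / (n * q) ≤ (j:ℝ) / (n * q) := div_le_div_of_nonneg_right h1 (by positivity)
  linarith

lemma lev_disj {n q : ℕ} {T L : ℝ} (hT : 0 ≤ Real.log T) (hL : 1 ≤ L) {i j p : ℕ} (hi : 1 ≤ i) (hj : 1 ≤ j)
    (h1 : p ∈ lev n q T L i) (h2 : p ∈ lev n q T L j) : i = j := by
  unfold lev at h1 h2
  rw [Finset.mem_filter] at h1 h2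
  by_contra h
  rcases Nat.lt_or_gt_of_ne h with h | h
  · have := An_mono (n := n) (q := q) hT hL (show i ≤ j - 1 by omega)
    linarith [h1.2.2, h2.2.1]
  · have := An_mono (n := n) (q := q) hT hL (show j ≤ i - 1 by omega)
    linarith [h2.2.2, h1.2.1]

/-- the coefficients of a linear form -/
noncomputable def wf (n q : ℕ) (T L : ℝ) (Js : Finset ℕ) (a b : ℕ → ℝ) (x y : ℝ) (p : ℕ) : ℂ :=
  ∑ j ∈ Js, if p ∈ lev n q T L j then (a j : ℂ) * wsh n T L x p + (b j : ℂ) * wsh n T L y p else 0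

/-- the primes of the levels in `Js` -/
noncomputable def lev' (n q : ℕ) (T L : ℝ) (Js : Finset ℕ) : Finset ℕ := Js.biUnion (lev n q T L)

lemma lev_prime {n q : ℕ} {T L : ℝ} {j p : ℕ} (h : p ∈ lev n q T L j) : p.Prime := by
  unfold lev at h
  rw [Finset.mem_filter, mem_QX] at h
  exact h.1.1

lemma wf_eq {n q : ℕ} {T L : ℝ} (hT : 0 ≤ Real.log T) (hL : 1 ≤ L) {Js : Finset ℕ} (hJ : ∀ j ∈ Js, 1 ≤ j) (a b : ℕ → ℝ) (x y : ℝ)
    {j p : ℕ} (hj : j ∈ Js) (hp : p ∈ lev n q T L j) :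
    wf n q T L Js a b x y p = (a j : ℂ) * wsh n T L x p + (b j : ℂ) * wsh n T L y p := by
  unfold wf
  rw [Finset.sum_eq_single_of_mem j hj, if_pos hp]
  intro i hi hij
  rw [if_neg]
  intro h
  exact hij (lev_disj hT hL (hJ i hi) (hJ j hj) h hp)

lemma sum_lev {n q : ℕ} {T L : ℝ} (hT : 0 ≤ Real.log T) (hL : 1 ≤ L) {Js : Finset ℕ} (hJ : ∀ j ∈ Js, 1 ≤ j) {R : Type*}
    [AddCommMonoid R] (f : ℕ → R) : ∑ p ∈ lev' n q T L Js, f p = ∑ j ∈ Js, ∑ p ∈ lev n q T L j, f p := by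
  unfold lev'
  apply Finset.sum_biUnion
  intro i hi j hj hij
  rw [Function.onFun, Finset.disjoint_left]
  intro p h1 h2
  exact hij (lev_disj hT hL (hJ i hi) (hJ j hj) h1 h2)

/-- the form is the real part of a Dirichlet polynomial -/
theorem form_eq {n q : ℕ} {T L : ℝ} (hT : 0 ≤ Real.log T) (hL : 1 ≤ L) {Js : Finset ℕ} (hJ : ∀ j ∈ Js, 1 ≤ j) (a b : ℕ → ℝ)
    (x y t : ℝ) : (DC (lev' n q T L Js) (wf n q T L Js a b x y) t).re =
      ∑ j ∈ Js, (a j * DD n T L (lev n q T L j) t x + b j * DD n T L (lev n q T L j) t y) := by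
  have h1 : DC (lev' n q T L Js) (wf n q T L Js a b x y) t =
      ∑ j ∈ Js, ((a j : ℂ) * DC (lev n q T L j) (wsh n T L x) t + (b j : ℂ) * DC (lev n q T L j) (wsh n T L y) t) := by
    unfold DC
    rw [sum_lev hT hL hJ]
    refine Finset.sum_congr rfl fun j hj => ?_
    rw [Finset.mul_sum, Finset.mul_sum, ← Finset.sum_add_distrib]
    refine Finset.sum_congr rfl fun p hp => ?_
    rw [wf_eq hT hL hJ a b x y hj hp]
    ring
  rw [h1, Complex.re_sum]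
  refine Finset.sum_congr rfl fun j _ => ?_
  unfold DD
  rw [DC_shift n T L x t fun p hp => lev_prime hp, DC_shift n T L y t fun p hp => lev_prime hp, Complex.add_re,
    Complex.re_ofReal_mul, Complex.re_ofReal_mul]

/-- the variance (twice) of a level and the correlation -/
noncomputable def cc (n q : ℕ) (T L : ℝ) (j : ℕ) (x y : ℝ) : ℝ :=
  ∑ p ∈ lev n q T L j, ‖w0 n T L p‖ ^ 2 / p * Real.cos ((x - y) * sp T * Real.log p)

lemma cc_abs (n q : ℕ) (T L : ℝ) (j : ℕ) (x y : ℝ) : |cc n q T L j x y| ≤ VV (lev n q T L j) (w0 n T L) := by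
  unfold cc VV
  refine (Finset.abs_sum_le_sum_abs _ _).trans (Finset.sum_le_sum fun p _ => ?_)
  rw [abs_mul, abs_of_nonneg (by positivity)]
  exact mul_le_of_le_one_right (by positivity) (Real.abs_cos_le_one _)

theorem form_var {n q : ℕ} {T L : ℝ} (hT : 0 ≤ Real.log T) (hL : 1 ≤ L) {Js : Finset ℕ} (hJ : ∀ j ∈ Js, 1 ≤ j) (a b : ℕ → ℝ)
    (x y : ℝ) : VV (lev' n q T L Js) (wf n q T L Js a b x y) =
      ∑ j ∈ Js, (a j ^ 2 * VV (lev n q T L j) (w0 n T L) + b j ^ 2 * VV (lev n q T L j) (w0 n T L) +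
        2 * a j * b j * cc n q T L j x y) := by
  unfold VV
  rw [sum_lev hT hL hJ]
  refine Finset.sum_congr rfl fun j hj => ?_
  unfold cc
  rw [Finset.mul_sum, Finset.mul_sum, Finset.mul_sum, ← Finset.sum_add_distrib, ← Finset.sum_add_distrib]
  refine Finset.sum_congr rfl fun p hp => ?_
  rw [wf_eq hT hL hJ a b x y hj hp, norm_form]
  ring

theorem form_coef {n q : ℕ} {T L : ℝ} (hT : 0 ≤ Real.log T) (hL : 1 ≤ L) {Js : Finset ℕ} (hJ : ∀ j ∈ Js, 1 ≤ j) {a b : ℕ → ℝ}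
    {H : ℝ} (ha : ∀ j ∈ Js, |a j| ≤ H) (hb : ∀ j ∈ Js, |b j| ≤ H) (x y : ℝ) {p : ℕ} (hp : p ∈ lev' n q T L Js) :
    ∃ j ∈ Js, p ∈ lev n q T L j ∧ ‖wf n q T L Js a b x y p‖ ^ 2 / p ≤ 4 * H ^ 2 * (‖w0 n T L p‖ ^ 2 / p) := by
  unfold lev' at hp
  rw [Finset.mem_biUnion] at hp
  obtain ⟨j, hj, hpj⟩ := hp
  refine ⟨j, hj, hpj, ?_⟩
  rw [wf_eq hT hL hJ a b x y hj hpj, norm_form]
  have hH : 0 ≤ H := (abs_nonneg _).trans (ha j hj)
  have h1 : a j ^ 2 + b j ^ 2 + 2 * a j * b j * Real.cos ((x - y) * sp T * Real.log p) ≤ 4 * H ^ 2 := by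
    have ha' := ha j hj
    have hb' := hb j hj
    have h2 : 2 * a j * b j * Real.cos ((x - y) * sp T * Real.log p) ≤ 2 * H * H := by
      refine (le_abs_self _).trans ?_
      rw [abs_mul, abs_mul, abs_mul, abs_two]
      calc 2 * |a j| * |b j| * |Real.cos ((x - y) * sp T * Real.log p)| ≤ 2 * H * H * 1 := by
            gcongr
            exact Real.abs_cos_le_one _
        _ = _ := mul_one _
    have h3 : a j ^ 2 ≤ H ^ 2 := by
      rw [← sq_abs]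
      exact pow_le_pow_left₀ (abs_nonneg _) ha' 2
    have h4 : b j ^ 2 ≤ H ^ 2 := by
      rw [← sq_abs]
      exact pow_le_pow_left₀ (abs_nonneg _) hb' 2
    nlinarith
  calc ‖w0 n T L p‖ ^ 2 * (a j ^ 2 + b j ^ 2 + 2 * a j * b j * Real.cos ((x - y) * sp T * Real.log p)) / p ≤
      ‖w0 n T L p‖ ^ 2 * (4 * H ^ 2) / p := by gcongr
    _ = _ := by ring

end Pool.Agent.Helper72.OR
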