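import Pool.Agent.Helper7.UV.Mert
import Pool.Agent.Helper93.NS.VarLow

/-!
# OR: block LV, sums over the primes of a level
-/

set_option autoImplicit false
open MeasureTheory Set Filter Topology

namespace Pool.Agent.Helper72.OR

/-- the weight -/
noncomputable def gw (X y : ℝ) : ℝ := (1 - y / X) ^ 4 / y

/-- its derivative -/
noncomputable def gw' (X y : ℝ) : ℝ := -(4 / X) * (1 - y / X) ^ 3 / y - (1 - y / X) ^ 4 / y ^ 2

lemma gw_deriv {X y : ℝ} (hy : y ≠ 0) : HasDerivAt (gw X) (gw' X y) y := by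
  have h1 : HasDerivAt (fun y : ℝ => 1 - y / X) (-(1 / X)) y := by
    simpa using ((hasDerivAt_id y).div_const X).const_sub 1
  have h2 := (h1.pow 4).div (hasDerivAt_id y) hy
  refine h2.congr_deriv ?_
  unfold gw'
  simp only [id, Pi.pow_apply]
  push_cast
  field_simp

lemma gw_cont {X A B : ℝ} (hA : 0 < A) : ContinuousOn (gw X) (Icc A B) := by
  unfold gw
  apply ContinuousOn.div (by fun_prop) (by fun_prop)
  intro y hy
  exact (hA.trans_le hy.1).ne'

lemma gw'_cont {X A B : ℝ} (hA : 0 < A) : ContinuousOn (gw' X) (Icc A B) := by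
  unfold gw'
  apply ContinuousOn.sub
  · apply ContinuousOn.div (by fun_prop) (by fun_prop)
    intro y hy
    exact (hA.trans_le hy.1).ne'
  · apply ContinuousOn.div (by fun_prop) (by fun_prop)
    intro y hy
    exact pow_ne_zero 2 (hA.trans_le hy.1).ne'

lemma one_sub {X y : ℝ} (hX : 0 < X) (hy : 0 ≤ y) (hyX : y ≤ X) : 0 ≤ 1 - y / X ∧ 1 - y / X ≤ 1 := by
  constructor
  · rw [sub_nonneg, div_le_one hX]
    exact hyX
  · have : 0 ≤ y / X := by positivity
    linarith

lemma gw_bd {X y : ℝ} (hX : 0 < X) (hy : 0 < y) (hyX : y ≤ X) : 0 ≤ gw X y ∧ gw X y ≤ 1 / y ∧ 1 / y - 4 / X ≤ gw X y ∧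
    |gw' X y| ≤ 4 / (X * y) + 1 / y ^ 2 := by
  obtain ⟨h1, h2⟩ := one_sub hX hy.le hyX
  unfold gw gw'
  refine ⟨by positivity, ?_, ?_, ?_⟩
  · apply div_le_div_of_nonneg_right _ hy.le
    exact pow_le_one₀ h1 h2
  · have h3 : 1 - 4 * (y / X) ≤ (1 - y / X) ^ 4 := by
      have := one_add_mul_le_pow (a := -(y / X)) (by linarith) 4
      calc 1 - 4 * (y / X) = 1 + (4 : ℕ) * (-(y / X)) := by push_cast; ring
        _ ≤ (1 + -(y / X)) ^ 4 := this
        _ = _ := by ring
    rw [le_div_iff₀ hy]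
    calc (1 / y - 4 / X) * y = 1 - 4 * (y / X) := by field_simp
      _ ≤ _ := h3
  · refine (abs_sub _ _).trans (add_le_add ?_ ?_)
    · rw [abs_div, abs_mul, abs_neg, abs_of_pos hy, abs_of_pos (by positivity : 0 < 4 / X), abs_of_nonneg (by positivity)]
      rw [div_le_iff₀ hy]
      calc 4 / X * (1 - y / X) ^ 3 ≤ 4 / X * 1 := by
            apply mul_le_mul_of_nonneg_left _ (by positivity)
            exact pow_le_one₀ h1 h2
        _ = _ := by field_simp
    · rw [abs_of_nonneg (by positivity)]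
      apply div_le_div_of_nonneg_right _ (by positivity)
      exact pow_le_one₀ h1 h2

/-- the integral of the bound for the derivative -/
lemma int_bd {X A B c : ℝ} (hA : 0 < A) (hAB : A ≤ B) :
    IntervalIntegrable (fun y => 4 / (X * y) + 1 / y ^ 2 + c / y) volume A B ∧
    ∫ y in A..B, (4 / (X * y) + 1 / y ^ 2 + c / y) = (4 / X + c) * Real.log (B / A) + (1 / A - 1 / B) := by
  have hB : 0 < B := hA.trans_le hAB
  have hne : ∀ y ∈ uIcc A B, y ≠ 0 := by
    intro y hy
    rw [uIcc_of_le hAB] at hy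
    exact (hA.trans_le hy.1).ne'
  have h0 : (0:ℝ) ∉ uIcc A B := fun h => hne 0 h rfl
  have c1 : ContinuousOn (fun y : ℝ => y⁻¹) (uIcc A B) := ContinuousOn.inv₀ continuousOn_id hne
  have c2 : ContinuousOn (fun y : ℝ => (y ^ 2)⁻¹) (uIcc A B) :=
    ContinuousOn.inv₀ (by fun_prop) fun y hy => pow_ne_zero 2 (hne y hy)
  have e : (fun y : ℝ => 4 / (X * y) + 1 / y ^ 2 + c / y) = fun y => (4 / X + c) * y⁻¹ + (y ^ 2)⁻¹ := by
    funext y
    rw [← div_div]
    simp only [div_eq_mul_inv, one_mul]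
    ring
  rw [e]
  have i1 : IntervalIntegrable (fun y : ℝ => (4 / X + c) * y⁻¹) volume A B := (c1.intervalIntegrable).const_mul _
  have i2 : IntervalIntegrable (fun y : ℝ => (y ^ 2)⁻¹) volume A B := c2.intervalIntegrable
  refine ⟨i1.add i2, ?_⟩
  rw [intervalIntegral.integral_add i1 i2, intervalIntegral.integral_const_mul, integral_inv h0]
  congr 1
  have h3 : ∫ y in A..B, (y ^ 2)⁻¹ = (fun y : ℝ => -y⁻¹) B - (fun y : ℝ => -y⁻¹) A := by
    apply intervalIntegral.integral_eq_sub_of_hasDerivAt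
    · intro y hy
      have := (hasDerivAt_inv (hne y hy)).neg
      refine this.congr_deriv ?_
      ring
    · exact i2
  rw [h3]
  simp only [one_div]
  ring

/-- the sum over the primes of a level, with an oscillating factor -/
theorem lev_sum : ∃ E : ℝ, 0 < E ∧ ∀ A B X u : ℝ, 0 < A → A ≤ B → B ≤ X → 0 ≤ u → ∀ P : Finset ℕ,
    (∀ p : ℕ, p ∈ P ↔ p.Prime ∧ A < Real.log p ∧ Real.log p ≤ B) →
    |∑ p ∈ P, (1 - Real.log p / X) ^ 4 * Real.cos (u * Real.log p) / p - ∫ y in A..B, gw X y * Real.cos (u * y)| ≤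
      E * (1 / A + (4 / X + u) * Real.log (B / A)) := by
  obtain ⟨E, hE, hs⟩ := Pool.Agent.Helper7.UV.prime_sum
  refine ⟨E, hE, fun A B X u hA hAB hBX hu P hP => ?_⟩
  have hB : 0 < B := hA.trans_le hAB
  have hX : 0 < X := hB.trans_le hBX
  have hd : ∀ y ∈ Icc A B, HasDerivAt (fun y => gw X y * Real.cos (u * y))
      (gw' X y * Real.cos (u * y) + gw X y * (-Real.sin (u * y) * u)) y := by
    intro y hy
    have h1 : HasDerivAt (fun y : ℝ => Real.cos (u * y)) (-Real.sin (u * y) * u) y := by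
      have h2 : HasDerivAt (fun y : ℝ => u * y) u y := by simpa using (hasDerivAt_id y).const_mul u
      exact h2.cos
    exact (gw_deriv (hA.trans_le hy.1).ne').mul h1
  have hc : ContinuousOn (fun y => gw' X y * Real.cos (u * y) + gw X y * (-Real.sin (u * y) * u)) (Icc A B) := by
    apply ContinuousOn.add
    · exact (gw'_cont hA).mul (by fun_prop)
    · exact (gw_cont hA).mul (by fun_prop)
  have h1 := hs A B hA.le hAB P hP _ _ hd hc
  have e1 : ∑ p ∈ P, Real.log p / p * (gw X (Real.log p) * Real.cos (u * Real.log p)) =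
      ∑ p ∈ P, (1 - Real.log p / X) ^ 4 * Real.cos (u * Real.log p) / p := by
    refine Finset.sum_congr rfl fun p hp => ?_
    obtain ⟨hpp, hp1, _⟩ := (hP p).1 hp
    have h2 : Real.log p ≠ 0 := (hA.trans hp1).ne'
    have h3 : (p:ℝ) ≠ 0 := by exact_mod_cast hpp.ne_zero
    unfold gw
    field_simp
  rw [e1] at h1
  refine h1.trans (mul_le_mul_of_nonneg_left ?_ hE.le)
  obtain ⟨i1, i2⟩ := int_bd (X := X) (c := u) hA hAB
  have h4 : ∫ y in A..B, |gw' X y * Real.cos (u * y) + gw X y * (-Real.sin (u * y) * u)| ≤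
      ∫ y in A..B, (4 / (X * y) + 1 / y ^ 2 + u / y) := by
    apply intervalIntegral.integral_mono_on hAB
    · exact (hc.abs.intervalIntegrable_of_Icc hAB)
    · exact i1
    · intro y hy
      have hy0 : 0 < y := hA.trans_le hy.1
      obtain ⟨g0, g1, -, g3⟩ := gw_bd hX hy0 (hy.2.trans hBX)
      refine (abs_add_le _ _).trans (add_le_add ?_ ?_)
      · rw [abs_mul]
        calc |gw' X y| * |Real.cos (u * y)| ≤ |gw' X y| * 1 := by
              gcongr
              exact Real.abs_cos_le_one _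
          _ ≤ _ := by rw [mul_one]; exact g3
      · rw [abs_mul, abs_mul, abs_neg, abs_of_nonneg g0, abs_of_nonneg hu]
        calc gw X y * (|Real.sin (u * y)| * u) ≤ 1 / y * (1 * u) := by
              gcongr
              exact Real.abs_sin_le_one _
          _ = u / y := by ring
  rw [i2] at h4
  have h5 : |gw X B * Real.cos (u * B)| ≤ 1 / B := by
    obtain ⟨g0, g1, -, -⟩ := gw_bd hX hB hBX
    rw [abs_mul, abs_of_nonneg g0]
    calc gw X B * |Real.cos (u * B)| ≤ 1 / B * 1 := by
          gcongr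
          exact Real.abs_cos_le_one _
      _ = _ := mul_one _
  linarith

/-- the main term of the variance -/
theorem int_var {A B X : ℝ} (hA : 0 < A) (hAB : A ≤ B) (hBX : B ≤ X) :
    |(∫ y in A..B, gw X y * Real.cos (0 * y)) - Real.log (B / A)| ≤ 4 * B / X := by
  have hB : 0 < B := hA.trans_le hAB
  have hX : 0 < X := hB.trans_le hBX
  simp only [zero_mul, Real.cos_zero, mul_one]
  have hne : ∀ y ∈ uIcc A B, y ≠ 0 := by
    intro y hy
    rw [uIcc_of_le hAB] at hy
    exact (hA.trans_le hy.1).ne'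
  have h0 : (0:ℝ) ∉ uIcc A B := fun h => hne 0 h rfl
  have c1 : ContinuousOn (fun y : ℝ => y⁻¹) (uIcc A B) := ContinuousOn.inv₀ continuousOn_id hne
  have c0 : IntervalIntegrable (gw X) volume A B := (gw_cont hA).intervalIntegrable_of_Icc hAB
  rw [← integral_inv h0, ← intervalIntegral.integral_sub c0 c1.intervalIntegrable, ← Real.norm_eq_abs]
  have h1 := intervalIntegral.norm_integral_le_of_norm_le_const (a := A) (b := B) (f := fun y => gw X y - y⁻¹)
    (C := 4 / X) (fun y hy => by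
      rw [uIoc_of_le hAB] at hy
      have hy0 : 0 < y := hA.trans hy.1
      obtain ⟨-, g1, g2, -⟩ := gw_bd hX hy0 (hy.2.trans hBX)
      rw [one_div] at g1 g2
      rw [Real.norm_eq_abs, abs_le]
      have : 0 < 4 / X := by positivity
      constructor <;> linarith)
  refine h1.trans ?_
  rw [abs_of_nonneg (by linarith)]
  calc 4 / X * (B - A) ≤ 4 / X * B := by gcongr; linarith
    _ = _ := by ring

/-- the oscillating integral -/
theorem int_osc {A B X u : ℝ} (hA : 0 < A) (hAB : A ≤ B) (hBX : B ≤ X) (hu : 0 < u) :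
    |∫ y in A..B, gw X y * Real.cos (u * y)| ≤ (3 / A + 4 / X * Real.log (B / A)) / u := by
  have hB : 0 < B := hA.trans_le hAB
  have hX : 0 < X := hB.trans_le hBX
  have hd2 : ∀ y ∈ uIcc A B, HasDerivAt (fun y => Real.sin (u * y) / u) (Real.cos (u * y)) y := by
    intro y _
    have h2 : HasDerivAt (fun y : ℝ => u * y) u y := by simpa using (hasDerivAt_id y).const_mul u
    have h3 := (h2.sin).div_const u
    refine h3.congr_deriv ?_
    field_simp
  have hd1 : ∀ y ∈ uIcc A B, HasDerivAt (gw X) (gw' X y) y := by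
    intro y hy
    rw [uIcc_of_le hAB] at hy
    exact gw_deriv (hA.trans_le hy.1).ne'
  have ci1 : IntervalIntegrable (gw' X) volume A B := (gw'_cont hA).intervalIntegrable_of_Icc hAB
  have ci2 : IntervalIntegrable (fun y => Real.cos (u * y)) volume A B :=
    (by fun_prop : Continuous fun y : ℝ => Real.cos (u * y)).intervalIntegrable _ _
  rw [intervalIntegral.integral_mul_deriv_eq_deriv_mul hd1 hd2 ci1 ci2]
  obtain ⟨gA0, gA1, -, -⟩ := gw_bd hX hA (hAB.trans hBX)
  obtain ⟨gB0, gB1, -, -⟩ := gw_bd hX hB hBX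
  have hs : ∀ y : ℝ, |Real.sin (u * y) / u| ≤ 1 / u := by
    intro y
    rw [abs_div, abs_of_pos hu]
    exact div_le_div_of_nonneg_right (Real.abs_sin_le_one _) hu.le
  have b1 : |gw X B * (Real.sin (u * B) / u)| ≤ 1 / A * (1 / u) := by
    rw [abs_mul, abs_of_nonneg gB0]
    have : gw X B ≤ 1 / A := gB1.trans (one_div_le_one_div_of_le hA hAB)
    exact mul_le_mul this (hs B) (abs_nonneg _) (by positivity)
  have b2 : |gw X A * (Real.sin (u * A) / u)| ≤ 1 / A * (1 / u) := by
    rw [abs_mul, abs_of_nonneg gA0]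
    exact mul_le_mul gA1 (hs A) (abs_nonneg _) (by positivity)
  obtain ⟨i1, i2⟩ := int_bd (X := X) (c := 0) hA hAB
  have b3 : |∫ y in A..B, gw' X y * (Real.sin (u * y) / u)| ≤ ((4 / X + 0) * Real.log (B / A) + (1 / A - 1 / B)) * (1 / u) := by
    rw [← i2, ← intervalIntegral.integral_mul_const, ← Real.norm_eq_abs]
    apply intervalIntegral.norm_integral_le_of_norm_le hAB
    · refine Eventually.of_forall fun y hy => ?_
      have hy0 : 0 < y := hA.trans hy.1
      obtain ⟨-, -, -, g3⟩ := gw_bd hX hy0 (hy.2.trans hBX)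
      rw [Real.norm_eq_abs, abs_mul]
      refine mul_le_mul ?_ (hs y) (abs_nonneg _) (by positivity)
      rw [zero_div, add_zero]
      exact g3
    · exact i1.mul_const _
  have hBi : 0 < 1 / B := by positivity
  calc _ ≤ |gw X B * (Real.sin (u * B) / u) - gw X A * (Real.sin (u * A) / u)| +
        |∫ y in A..B, gw' X y * (Real.sin (u * y) / u)| := abs_sub _ _
    _ ≤ (1 / A * (1 / u) + 1 / A * (1 / u)) + ((4 / X + 0) * Real.log (B / A) + (1 / A - 1 / B)) * (1 / u) :=
        add_le_add ((abs_sub _ _).trans (add_le_add b1 b2)) b3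
    _ ≤ (1 / A * (1 / u) + 1 / A * (1 / u)) + ((4 / X + 0) * Real.log (B / A) + 1 / A) * (1 / u) := by
        gcongr
        linarith
    _ = _ := by ring

end Pool.Agent.Helper72.OR
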