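import Pool.Agent.Helper93.OR.Defs
import Pool.Agent.Helper72.OR.Gen

/-!
# OR: blocks LV0 (`lev_range`), LV1 (`lev_var`), LV2 (`lev_corr`)
-/

set_option autoImplicit false
open MeasureTheory Set Filter Topology
open Pool.Agent.Helper93.UG (zc sp)
open Pool.Agent.Helper57.TX (QX DP rs)
open Pool.Agent.Helper57.NS (cnt)
open Pool.Agent.Helper62.OP (DC Xo Pp Nt rho Ms pr Rng)
open Pool.Agent.Helper93.OR
open Pool.Agent.Helper93.NS (mem_QX)

namespace Pool.Agent.Helper72.OR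

/-- the smoothing scale -/
lemma Ms_pow {n : ℕ} {L : ℝ} (hL : 1 ≤ L) :
    Ms (dd n / 100) (RR n L) L = L ^ (dd n - (1 - dd n) * (dd n / 100)) := by
  have hL0 : 0 < L := by linarith
  unfold Ms RR
  have h1 : L / L ^ dd n = L ^ (1 - dd n) := by
    rw [Real.rpow_sub hL0, Real.rpow_one]
  rw [h1, ← Real.rpow_mul hL0.le, ← Real.rpow_add hL0]
  congr 1
  ring

lemma dd_facts {n : ℕ} (hn : 4 ≤ n) : 0 < dd n ∧ dd n ≤ 1 / 4 := by
  have h1 : (4:ℝ) ≤ n := by exact_mod_cast hn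
  unfold dd
  refine ⟨by positivity, one_div_le_one_div_of_le (by norm_num) h1⟩

lemma Ms_bd {n : ℕ} (hn : 4 ≤ n) {L : ℝ} (hL : 1 ≤ L) :
    L ^ (dd n / 2) ≤ Ms (dd n / 100) (RR n L) L ∧ Ms (dd n / 100) (RR n L) L ≤ L ^ dd n := by
  obtain ⟨h1, h2⟩ := dd_facts hn
  rw [Ms_pow hL]
  constructor
  · apply Real.rpow_le_rpow_of_exponent_le hL
    nlinarith
  · apply Real.rpow_le_rpow_of_exponent_le hL
    nlinarith

lemma Xn_eq (n : ℕ) (T L : ℝ) : Xn n T L = Real.log T / Ms (dd n / 100) (RR n L) L := rfl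

lemma w0_norm {n : ℕ} {T L : ℝ} (p : ℕ) : ‖w0 n T L p‖ = 1 / Real.pi * (1 - Real.log p / Xn n T L) ^ 2 := by
  unfold w0 pr
  rw [norm_mul, norm_neg, norm_div, Complex.norm_I, Complex.norm_real, Complex.norm_real, Real.norm_eq_abs, Real.norm_eq_abs,
    abs_of_pos Real.pi_pos, abs_of_nonneg (sq_nonneg _)]
  rfl

lemma w0_sq {n : ℕ} {T L : ℝ} (p : ℕ) : ‖w0 n T L p‖ ^ 2 = 1 / Real.pi ^ 2 * (1 - Real.log p / Xn n T L) ^ 4 := by
  rw [w0_norm]
  ring

/-- the basic inequalities -/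
lemma basic {n : ℕ} {δ T L : ℝ} (hδ : 0 < δ) (hδ1 : δ ≤ 1) (hnd : dd n ≤ δ) (hT : 3 ≤ T) (hL : 1 ≤ L)
    (hLT : L ≤ Real.log T ^ (1 - δ)) : 1 ≤ Real.log T ∧ L ≤ Real.log T ∧ Real.log T ^ δ ≤ Real.log T * L ^ (-1 : ℝ) ∧
      L / Real.log T ≤ L ^ (-dd n) := by
  have hlT : 1 ≤ Real.log T := by
    rw [Real.le_log_iff_exp_le (by linarith)]
    have := Real.exp_one_lt_d9
    linarith
  have hlT0 : 0 < Real.log T := by linarith
  have hL0 : 0 < L := by linarith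
  have hLl : L ≤ Real.log T := by
    calc L ≤ Real.log T ^ (1 - δ) := hLT
      _ ≤ Real.log T ^ (1 : ℝ) := Real.rpow_le_rpow_of_exponent_le hlT (by linarith)
      _ = Real.log T := Real.rpow_one _
  refine ⟨hlT, hLl, ?_, ?_⟩
  · rw [Real.rpow_neg_one, ← div_eq_mul_inv, le_div_iff₀ hL0]
    calc Real.log T ^ δ * L ≤ Real.log T ^ δ * Real.log T ^ (1 - δ) := by gcongr
      _ = Real.log T := by rw [← Real.rpow_add hlT0]; norm_num
  · rw [div_le_iff₀ hlT0]
    have h1 : L ^ δ ≤ Real.log T ^ δ := Real.rpow_le_rpow hL0.le hLl hδ.le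
    have h2 : L ^ dd n ≤ L ^ δ := Real.rpow_le_rpow_of_exponent_le hL hnd
    have h3 : L * L ^ dd n ≤ Real.log T := by
      calc L * L ^ dd n ≤ Real.log T ^ (1 - δ) * Real.log T ^ δ := by
            apply mul_le_mul hLT (h2.trans h1) (by positivity) (by positivity)
        _ = Real.log T := by rw [← Real.rpow_add hlT0]; norm_num
    rw [Real.rpow_neg hL0.le, inv_mul_eq_div, le_div_iff₀ (by positivity)]
    exact h3

theorem lev_range {n : ℕ} (hn : 4 ≤ n) {δ : ℝ} (hδ : 0 < δ) (hδ1 : δ ≤ 1) (hnd : 1 / n ≤ δ) : ∃ C T₀ : ℝ, 1 ≤ C ∧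
    ∀ T L : ℝ, T₀ ≤ T → C ≤ L → L ≤ Real.log T ^ (1 - δ) →
      (∀ p ∈ QX (Xn n T L), p.Prime ∧ (p : ℝ) ≤ Real.exp (Xn n T L) ∧ ‖w0 n T L p‖ ≤ 1) ∧ 1 ≤ Xn n T L ∧
      ∀ m : ℕ, (m : ℝ) ≤ L ^ (1 / (4 * n) : ℝ) → Real.exp (Xn n T L) ^ (m + 1) ≤ T ^ (1 / 16 : ℝ) := by
  have hn4 : (4:ℝ) ≤ n := by exact_mod_cast hn
  refine ⟨32 ^ (4 * n), 3, one_le_pow₀ (by norm_num), fun T L hT hL hLT => ?_⟩
  have hL1 : 1 ≤ L := (one_le_pow₀ (by norm_num : (1:ℝ) ≤ 32)).trans hL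
  have hL0 : 0 < L := by linarith
  obtain ⟨hlT, hLl, -, -⟩ := basic (n := n) hδ hδ1 hnd hT hL1 hLT
  obtain ⟨hM1, hM2⟩ := Ms_bd hn hL1
  obtain ⟨d1, d2⟩ := dd_facts hn
  set M := Ms (dd n / 100) (RR n L) L with hM
  have hM0 : 0 < M := lt_of_lt_of_le (by positivity) hM1
  have hX : Xn n T L = Real.log T / M := rfl
  have hX1 : 1 ≤ Xn n T L := by
    rw [hX, one_le_div hM0]
    calc M ≤ L ^ dd n := hM2
      _ ≤ L ^ (1:ℝ) := Real.rpow_le_rpow_of_exponent_le hL1 (by linarith)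
      _ = L := Real.rpow_one _
      _ ≤ _ := hLl
  refine ⟨fun p hp => ?_, hX1, fun m hm => ?_⟩
  · rw [mem_QX] at hp
    have hp0 : (0:ℝ) < p := by exact_mod_cast hp.1.pos
    have hlp : 0 ≤ Real.log p := Real.log_natCast_nonneg p
    refine ⟨hp.1, ?_, ?_⟩
    · rw [← Real.log_le_iff_le_exp hp0]
      exact hp.2
    · rw [w0_norm]
      obtain ⟨e1, e2⟩ := one_sub (X := Xn n T L) (by linarith) hlp hp.2
      have h3 : (1 - Real.log p / Xn n T L) ^ 2 ≤ 1 := pow_le_one₀ e1 e2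
      have h4 : 1 / Real.pi ≤ 1 := by
        rw [div_le_one Real.pi_pos]
        linarith [Real.pi_gt_three]
      calc _ ≤ 1 * 1 := mul_le_mul h4 h3 (sq_nonneg _) (by norm_num)
        _ = 1 := one_mul 1
  · have hT0 : 0 < T := by linarith
    rw [← Real.exp_nat_mul, Real.rpow_def_of_pos hT0, Real.exp_le_exp, hX]
    have e1 : (32:ℝ) ≤ L ^ (1 / (4 * n) : ℝ) := by
      calc (32:ℝ) = ((32:ℝ) ^ (4 * n)) ^ (1 / (4 * n) : ℝ) := by
            rw [← Real.rpow_natCast, ← Real.rpow_mul (by norm_num)]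
            push_cast
            rw [mul_one_div_cancel (by positivity), Real.rpow_one]
        _ ≤ _ := Real.rpow_le_rpow (by positivity) hL (by positivity)
    have e2 : L ^ (1 / (4 * n) : ℝ) * L ^ (1 / (4 * n) : ℝ) ≤ M := by
      rw [← Real.rpow_add hL0]
      refine le_trans (le_of_eq ?_) hM1
      congr 1
      unfold dd
      field_simp
      norm_num
    have e3 : 16 * ((m:ℝ) + 1) ≤ M := by
      calc 16 * ((m:ℝ) + 1) ≤ 32 * L ^ (1 / (4 * n) : ℝ) := by linarith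
        _ ≤ L ^ (1 / (4 * n) : ℝ) * L ^ (1 / (4 * n) : ℝ) := by gcongr
        _ ≤ M := e2
    push_cast
    rw [mul_div_assoc', div_le_iff₀ hM0]
    have h9 : 0 ≤ Real.log T := by linarith
    nlinarith

/-- the level, its ends -/
lemma lev_facts {n q : ℕ} (hn : 4 ≤ n) (hq : 1 ≤ q) {δ T L : ℝ} (hδ : 0 < δ) (hδ1 : δ ≤ 1) (hnd : dd n ≤ δ) (hT : 3 ≤ T) (hL : 1 ≤ L)
    (hLT : L ≤ Real.log T ^ (1 - δ)) {j : ℕ} (hj : j ∈ Finset.Icc 1 (JJ n q)) :
    ∃ A B : ℝ, A = Real.log T * L ^ (-1 + ((j : ℝ) - 1) / (n * q)) ∧ 0 < A ∧ A ≤ B ∧ B ≤ Xn n T L ∧ 1 ≤ A ∧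
      Real.log T ^ δ ≤ A ∧ 1 / A ≤ L ^ (-dd n) ∧ B / Xn n T L ≤ L ^ (-dd n) ∧
      Real.log (B / A) = 2 * Wb n q L ∧ (∀ p : ℕ, p ∈ lev n q T L j ↔ p.Prime ∧ A < Real.log p ∧ Real.log p ≤ B) := by
  obtain ⟨hlT, hLl, hA1, hA2⟩ := basic (n := n) hδ hδ1 hnd hT hL hLT
  obtain ⟨hM1, hM2⟩ := Ms_bd hn hL
  obtain ⟨d1, d2⟩ := dd_facts hn
  rw [Finset.mem_Icc] at hj
  have hL0 : 0 < L := by linarith
  have hlT0 : 0 < Real.log T := by linarith
  have hn0 : (0:ℝ) < n := by exact_mod_cast (by omega : 0 < n)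
  have hq0 : (0:ℝ) < q := by exact_mod_cast hq
  have hj1 : (1:ℝ) ≤ j := by exact_mod_cast hj.1
  have hjJ : (j:ℝ) ≤ (n - 2) * q := by
    have h1 : j ≤ (n - 2) * q := hj.2
    have h2 : ((n - 2 : ℕ) : ℝ) = (n:ℝ) - 2 := by
      rw [Nat.cast_sub (by omega)]
      norm_num
    calc (j:ℝ) ≤ (((n - 2) * q : ℕ) : ℝ) := by exact_mod_cast h1
      _ = _ := by rw [Nat.cast_mul, h2]
  have hcast : ((j - 1 : ℕ) : ℝ) = (j:ℝ) - 1 := by
    rw [Nat.cast_sub hj.1]
    norm_num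
  set M := Ms (dd n / 100) (RR n L) L with hM
  have hM0 : 0 < M := lt_of_lt_of_le (by positivity) hM1
  have hX : Xn n T L = Real.log T / M := rfl
  refine ⟨An n q T L (j - 1), An n q T L j, ?_, ?_, ?_, ?_, ?_, ?_, ?_, ?_, ?_, ?_⟩
  · unfold An
    rw [hcast]
  · unfold An
    positivity
  · unfold An
    rw [hcast]
    apply mul_le_mul_of_nonneg_left _ hlT0.le
    apply Real.rpow_le_rpow_of_exponent_le hL
    have : ((j:ℝ) - 1) / (n * q) ≤ (j:ℝ) / (n * q) := div_le_div_of_nonneg_right (by linarith) (by positivity)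
    linarith
  all_goals have hB : An n q T L j ≤ Real.log T * L ^ (-(2 * dd n)) := by
              unfold An
              apply mul_le_mul_of_nonneg_left _ hlT0.le
              apply Real.rpow_le_rpow_of_exponent_le hL
              have h1 : (j:ℝ) / (n * q) ≤ ((n - 2) * q) / (n * q) := div_le_div_of_nonneg_right hjJ (by positivity)
              have h2 : ((n:ℝ) - 2) * q / (n * q) = 1 - 2 * dd n := by
                unfold dd
                field_simp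
              linarith
  all_goals have hBX : An n q T L j ≤ L ^ (-dd n) * Xn n T L := by
              rw [hX, ← mul_div_assoc, le_div_iff₀ hM0]
              calc An n q T L j * M ≤ (Real.log T * L ^ (-(2 * dd n))) * L ^ dd n := by
                    apply mul_le_mul hB hM2 hM0.le (by positivity)
                _ = L ^ (-dd n) * Real.log T := by
                    rw [mul_assoc, ← Real.rpow_add hL0, mul_comm]
                    congr 2
                    ring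
  all_goals have hX0 : 0 < Xn n T L := by rw [hX]; positivity
  all_goals have hLd : L ^ (-dd n) ≤ 1 := Real.rpow_le_one_of_one_le_of_nonpos hL (by linarith)
  all_goals have hBX' : An n q T L j ≤ Xn n T L := hBX.trans (mul_le_of_le_one_left hX0.le hLd)
  all_goals have hA0 : Real.log T * L ^ (-1 : ℝ) ≤ An n q T L (j - 1) := by
              unfold An
              rw [hcast]
              apply mul_le_mul_of_nonneg_left _ hlT0.le
              apply Real.rpow_le_rpow_of_exponent_le hL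
              have : 0 ≤ ((j:ℝ) - 1) / (n * q) := div_nonneg (by linarith) (by positivity)
              linarith
  · exact hBX'
  · refine le_trans ?_ (hA1.trans hA0)
    exact Real.one_le_rpow hlT hδ.le
  · exact hA1.trans hA0
  · refine le_trans ?_ hA2
    rw [div_le_div_iff₀ (by unfold An; positivity) hlT0]
    have h1 : Real.log T = Real.log T * L ^ (-1 : ℝ) * L := by
      rw [mul_assoc, Real.rpow_neg_one, inv_mul_cancel₀ hL0.ne', mul_one]
    calc 1 * Real.log T = Real.log T * L ^ (-1 : ℝ) * L := by rw [one_mul]; exact h1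
      _ ≤ An n q T L (j - 1) * L := by gcongr
      _ = _ := mul_comm _ _
  · rw [div_le_iff₀ hX0]
    exact hBX
  · have h1 : An n q T L j / An n q T L (j - 1) = L ^ (1 / ((n:ℝ) * q)) := by
      unfold An
      rw [hcast, mul_div_mul_left _ _ hlT0.ne', ← Real.rpow_sub hL0]
      congr 1
      ring
    rw [h1, Real.log_rpow hL0]
    unfold Wb
    field_simp
  · intro p
    unfold lev
    rw [Finset.mem_filter, mem_QX]
    constructor
    · rintro ⟨⟨h1, _⟩, h2, h3⟩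
      exact ⟨h1, h2, h3⟩
    · rintro ⟨h1, h2, h3⟩
      exact ⟨⟨h1, h3.trans hBX'⟩, h2, h3⟩

lemma lev_eq {n q : ℕ} {T L : ℝ} (j : ℕ) (u : ℝ) : ∑ p ∈ lev n q T L j, ‖w0 n T L p‖ ^ 2 / p * Real.cos (u * Real.log p) =
    1 / Real.pi ^ 2 * ∑ p ∈ lev n q T L j, (1 - Real.log p / Xn n T L) ^ 4 * Real.cos (u * Real.log p) / p := by
  rw [Finset.mul_sum]
  refine Finset.sum_congr rfl fun p _ => ?_
  rw [w0_sq]
  ring

theorem lev_var {n q : ℕ} (hn : 4 ≤ n) (hq : 1 ≤ q) {δ : ℝ} (hδ : 0 < δ) (hδ1 : δ ≤ 1) (hnd : 1 / n ≤ δ) :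
    ∃ c C T₀ : ℝ, 0 < c ∧ 1 ≤ C ∧ ∀ T L : ℝ, T₀ ≤ T → C ≤ L → L ≤ Real.log T ^ (1 - δ) → ∀ j ∈ Finset.Icc 1 (JJ n q),
      |VV (lev n q T L j) (w0 n T L) - 2 * Wb n q L / Real.pi ^ 2| ≤ C * L ^ (-c) ∧
      ∀ p ∈ lev n q T L j, ‖w0 n T L p‖ ^ 2 / p ≤ Real.exp (-(Real.log T ^ δ)) := by
  obtain ⟨E, hE, hs⟩ := lev_sum
  obtain ⟨d1, d2⟩ := dd_facts hn
  refine ⟨dd n, 5 * E + 4, 3, d1, by linarith, fun T L hT hL hLT j hj => ?_⟩
  have hL1 : 1 ≤ L := by linarith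
  obtain ⟨A, B, hA, hA0, hAB, hBX, hA1, hAd, hAi, hBi, hlog, hmem⟩ := lev_facts hn hq hδ hδ1 hnd hT hL1 hLT hj
  have hX : 0 < Xn n T L := (hA0.trans_le hAB).trans_le hBX
  have hB0 : 0 < B := hA0.trans_le hAB
  have hpi := Real.pi_gt_three
  have hLd : 0 < L ^ (-dd n) := Real.rpow_pos_of_pos (by linarith) _
  constructor
  · have h1 := hs A B (Xn n T L) 0 hA0 hAB hBX le_rfl _ hmem
    have h2 := int_var hA0 hAB hBX
    have h3 : VV (lev n q T L j) (w0 n T L) =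
        1 / Real.pi ^ 2 * ∑ p ∈ lev n q T L j, (1 - Real.log p / Xn n T L) ^ 4 * Real.cos (0 * Real.log p) / p := by
      rw [← lev_eq]
      unfold VV
      refine Finset.sum_congr rfl fun p _ => ?_
      rw [zero_mul, Real.cos_zero, mul_one]
    have h4 : (4 / Xn n T L + 0) * Real.log (B / A) ≤ 4 * L ^ (-dd n) := by
      have e1 : Real.log (B / A) ≤ B := by
        calc Real.log (B / A) ≤ B / A := (Real.log_le_sub_one_of_pos (by positivity)).trans (by linarith)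
          _ ≤ B := div_le_self hB0.le hA1
      calc (4 / Xn n T L + 0) * Real.log (B / A) ≤ (4 / Xn n T L + 0) * B := by gcongr
        _ = 4 * (B / Xn n T L) := by ring
        _ ≤ _ := by gcongr
    have h5 : |(∑ p ∈ lev n q T L j, (1 - Real.log p / Xn n T L) ^ 4 * Real.cos (0 * Real.log p) / p) - 2 * Wb n q L| ≤
        (5 * E + 4) * L ^ (-dd n) := by
      rw [← hlog]
      calc _ ≤ _ := abs_sub_le _ (∫ y in A..B, gw (Xn n T L) y * Real.cos (0 * y)) _
        _ ≤ E * (1 / A + (4 / Xn n T L + 0) * Real.log (B / A)) + 4 * B / Xn n T L := add_le_add h1 h2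
        _ = E * (1 / A + (4 / Xn n T L + 0) * Real.log (B / A)) + 4 * (B / Xn n T L) := by rw [mul_div_assoc]
        _ ≤ E * (L ^ (-dd n) + 4 * L ^ (-dd n)) + 4 * L ^ (-dd n) := by gcongr
        _ = _ := by ring
    rw [h3]
    have h6 : 1 / Real.pi ^ 2 * (∑ p ∈ lev n q T L j, (1 - Real.log p / Xn n T L) ^ 4 * Real.cos (0 * Real.log p) / p) -
        2 * Wb n q L / Real.pi ^ 2 = 1 / Real.pi ^ 2 *
          ((∑ p ∈ lev n q T L j, (1 - Real.log p / Xn n T L) ^ 4 * Real.cos (0 * Real.log p) / p) - 2 * Wb n q L) := by ring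
    rw [h6, abs_mul, abs_of_pos (by positivity)]
    have h7 : 1 / Real.pi ^ 2 ≤ 1 := by
      rw [div_le_one (by positivity)]
      nlinarith
    calc _ ≤ 1 * ((5 * E + 4) * L ^ (-dd n)) := mul_le_mul h7 h5 (abs_nonneg _) (by norm_num)
      _ = _ := one_mul _
  · intro p hp
    obtain ⟨hp1, hp2, hp3⟩ := (hmem p).1 hp
    have hp0 : (0:ℝ) < p := by exact_mod_cast hp1.pos
    have hlp : 0 ≤ Real.log p := Real.log_natCast_nonneg p
    obtain ⟨e1, e2⟩ := one_sub hX hlp (hp3.trans hBX)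
    have h3 : ‖w0 n T L p‖ ^ 2 ≤ 1 := by
      rw [w0_sq]
      have h4 : (1 - Real.log p / Xn n T L) ^ 4 ≤ 1 := pow_le_one₀ e1 e2
      have h7 : 1 / Real.pi ^ 2 ≤ 1 := by
        rw [div_le_one (by positivity)]
        nlinarith
      calc _ ≤ 1 * 1 := mul_le_mul h7 h4 (by positivity) (by norm_num)
        _ = 1 := one_mul 1
    rw [div_le_iff₀ hp0]
    have h4 : Real.exp (Real.log T ^ δ) ≤ p := by
      rw [← Real.le_log_iff_exp_le hp0]
      linarith
    rw [Real.exp_neg]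
    calc ‖w0 n T L p‖ ^ 2 ≤ 1 := h3
      _ = (Real.exp (Real.log T ^ δ))⁻¹ * Real.exp (Real.log T ^ δ) := by rw [inv_mul_cancel₀ (Real.exp_ne_zero _)]
      _ ≤ _ := by gcongr

theorem lev_corr {n q : ℕ} (hn : 4 ≤ n) (hq : 1 ≤ q) {δ : ℝ} (hδ : 0 < δ) (hδ1 : δ ≤ 1) (hnd : 1 / n ≤ δ) :
    ∃ c C T₀ : ℝ, 0 < c ∧ 1 ≤ C ∧ ∀ T L : ℝ, T₀ ≤ T → C ≤ L → L ≤ Real.log T ^ (1 - δ) → ∀ j ∈ Finset.Icc 1 (JJ n q), ∀ h : ℝ, h ≠ 0 →
      |h| ≤ 2 * L →
      |∑ p ∈ lev n q T L j, ‖w0 n T L p‖ ^ 2 / p * Real.cos (h * sp T * Real.log p)| ≤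
        C * (L ^ (1 - ((j : ℝ) - 1) / (n * q)) / |h| + L ^ (-c)) := by
  obtain ⟨E, hE, hs⟩ := lev_sum
  obtain ⟨d1, d2⟩ := dd_facts hn
  have hn0 : (0:ℝ) < n := by exact_mod_cast (by omega : 0 < n)
  have hq1 : (1:ℝ) ≤ q := by exact_mod_cast hq
  refine ⟨dd n / 2, E * (5 + 32 * n) + 4, 3, by positivity, by nlinarith [mul_pos hE hn0], fun T L hT hL hLT j hj h hh hhL => ?_⟩
  have hL1 : 1 ≤ L := by nlinarith [mul_pos hE hn0]
  have hL0 : 0 < L := by linarith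
  obtain ⟨A, B, hA, hA0, hAB, hBX, hA1, hAd, hAi, hBi, hlog, hmem⟩ := lev_facts hn hq hδ hδ1 hnd hT hL1 hLT hj
  obtain ⟨hlT, hLl, -, hLd2⟩ := basic (n := n) hδ hδ1 hnd hT hL1 hLT
  have hlT0 : 0 < Real.log T := by linarith
  have hX : 0 < Xn n T L := (hA0.trans_le hAB).trans_le hBX
  have hB0 : 0 < B := hA0.trans_le hAB
  have hpi := Real.pi_gt_three
  have hpi4 := Real.pi_lt_four
  have hh0 : 0 < |h| := abs_pos.2 hh
  have hsp : 0 < sp T := by unfold sp; positivity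
  obtain ⟨u, hu⟩ : ∃ u, u = |h| * sp T := ⟨_, rfl⟩
  have hu0 : 0 < u := by rw [hu]; positivity
  have hcos : ∀ p : ℕ, Real.cos (h * sp T * Real.log p) = Real.cos (u * Real.log p) := by
    intro p
    rw [hu]
    rcases abs_cases h with ⟨h1, -⟩ | ⟨h1, -⟩
    · rw [h1]
    · rw [h1, ← Real.cos_neg]
      congr 1
      ring
  simp only [hcos]
  rw [lev_eq]
  have h1 := hs A B (Xn n T L) u hA0 hAB hBX hu0.le _ hmem
  have h2 := int_osc hA0 hAB hBX hu0
  have hlog0 : 0 ≤ Real.log (B / A) := Real.log_nonneg (by rwa [one_le_div hA0])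
  have hlogB : Real.log (B / A) ≤ B / A := (Real.log_le_sub_one_of_pos (by positivity)).trans (by linarith)
  have hLd : 0 < L ^ (-(dd n / 2)) := Real.rpow_pos_of_pos hL0 _
  have hLd1 : L ^ (-dd n) ≤ L ^ (-(dd n / 2)) := Real.rpow_le_rpow_of_exponent_le hL1 (by linarith)
  have hLd3 : L ^ (-dd n) ≤ 1 := Real.rpow_le_one_of_one_le_of_nonpos hL1 (by linarith)
  -- the Mertens error
  have e1 : 4 / Xn n T L * Real.log (B / A) ≤ 4 * L ^ (-(dd n / 2)) := by
    calc 4 / Xn n T L * Real.log (B / A) ≤ 4 / Xn n T L * B := by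
          gcongr
          exact hlogB.trans (div_le_self hB0.le hA1)
      _ = 4 * (B / Xn n T L) := by ring
      _ ≤ 4 * L ^ (-(dd n / 2)) := by
          gcongr
          exact hBi.trans hLd1
  have e2 : u * Real.log (B / A) ≤ 32 * n * L ^ (-(dd n / 2)) := by
    have k1 : Real.log (B / A) ≤ Real.log L := by
      rw [hlog]
      unfold Wb
      have hlL : 0 ≤ Real.log L := Real.log_nonneg hL1
      have hnq : (1:ℝ) ≤ n * q := by
        have : (4:ℝ) ≤ n := by exact_mod_cast hn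
        nlinarith
      rw [← mul_div_assoc, div_le_iff₀ (by positivity)]
      nlinarith
    have k2 : Real.log L ≤ L ^ (dd n / 2) / (dd n / 2) := Real.log_le_rpow_div hL0.le (by positivity)
    have k3 : u ≤ 16 * (L / Real.log T) := by
      rw [hu]
      unfold sp
      calc |h| * (2 * Real.pi / Real.log T) ≤ (2 * L) * (2 * 4 / Real.log T) := by gcongr
        _ = _ := by ring
    have k4 : 1 / (dd n / 2) = 2 * n := by
      unfold dd
      field_simp
    calc u * Real.log (B / A) ≤ (16 * L ^ (-dd n)) * (L ^ (dd n / 2) / (dd n / 2)) := by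
          apply mul_le_mul (k3.trans (by gcongr)) (k1.trans k2) hlog0 (by positivity)
      _ = 16 * (1 / (dd n / 2)) * (L ^ (-dd n) * L ^ (dd n / 2)) := by ring
      _ = 32 * n * L ^ (-(dd n / 2)) := by
          rw [k4, ← Real.rpow_add hL0]
          have : -dd n + dd n / 2 = -(dd n / 2) := by ring
          rw [this]
          ring
  have e3 : E * (1 / A + (4 / Xn n T L + u) * Real.log (B / A)) ≤ E * (5 + 32 * n) * L ^ (-(dd n / 2)) := by
    rw [mul_assoc]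
    apply mul_le_mul_of_nonneg_left _ hE.le
    rw [add_mul]
    have := hAi.trans hLd1
    linarith
  -- the oscillating integral
  have e4 : (3 / A + 4 / Xn n T L * Real.log (B / A)) / u ≤ 4 * (L ^ (1 - ((j : ℝ) - 1) / (n * q)) / |h|) := by
    have k1 : 4 / Xn n T L * Real.log (B / A) ≤ 4 / A := by
      calc 4 / Xn n T L * Real.log (B / A) ≤ 4 / Xn n T L * (B / A) := by gcongr
        _ = 4 * (B / Xn n T L) / A := by ring
        _ ≤ 4 * 1 / A := by
            gcongr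
            exact hBi.trans hLd3
        _ = 4 / A := by ring
    have k2 : A * u = 2 * Real.pi * |h| * L ^ (-1 + ((j : ℝ) - 1) / (n * q)) := by
      rw [hA, hu]
      unfold sp
      field_simp
    have k3 : L ^ (1 - ((j : ℝ) - 1) / (n * q)) * L ^ (-1 + ((j : ℝ) - 1) / (n * q)) = 1 := by
      rw [← Real.rpow_add hL0]
      have : 1 - ((j : ℝ) - 1) / (n * q) + (-1 + ((j : ℝ) - 1) / (n * q)) = 0 := by ring
      rw [this, Real.rpow_zero]
    calc (3 / A + 4 / Xn n T L * Real.log (B / A)) / u ≤ (3 / A + 4 / A) / u := by gcongr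
      _ = 7 / (A * u) := by rw [← add_div, div_div]; norm_num
      _ ≤ _ := by
          rw [k2, div_le_iff₀ (by positivity)]
          calc (7:ℝ) ≤ 4 * (2 * Real.pi) * 1 := by linarith
            _ = 4 * (2 * Real.pi) * (L ^ (1 - ((j : ℝ) - 1) / (n * q)) * L ^ (-1 + ((j : ℝ) - 1) / (n * q))) := by rw [k3]
            _ = _ := by field_simp
  have e5 : |∑ p ∈ lev n q T L j, (1 - Real.log p / Xn n T L) ^ 4 * Real.cos (u * Real.log p) / p| ≤
      E * (5 + 32 * n) * L ^ (-(dd n / 2)) + 4 * (L ^ (1 - ((j : ℝ) - 1) / (n * q)) / |h|) := by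
    have k := abs_sub_abs_le_abs_sub (∑ p ∈ lev n q T L j, (1 - Real.log p / Xn n T L) ^ 4 * Real.cos (u * Real.log p) / p)
      (∫ y in A..B, gw (Xn n T L) y * Real.cos (u * y))
    linarith
  rw [abs_mul, abs_of_pos (by positivity)]
  have h7 : 1 / Real.pi ^ 2 ≤ 1 := by
    rw [div_le_one (by positivity)]
    nlinarith
  have h8 : 0 < L ^ (1 - ((j : ℝ) - 1) / (n * q)) / |h| := by positivity
  calc _ ≤ 1 * (E * (5 + 32 * n) * L ^ (-(dd n / 2)) + 4 * (L ^ (1 - ((j : ℝ) - 1) / (n * q)) / |h|)) :=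
        mul_le_mul h7 e5 (abs_nonneg _) (by norm_num)
    _ ≤ (E * (5 + 32 * n) + 4) * L ^ (-(dd n / 2)) + (E * (5 + 32 * n) + 4) * (L ^ (1 - ((j : ℝ) - 1) / (n * q)) / |h|) := by
        have k5 : 0 ≤ E * (5 + 32 * n) := by positivity
        nlinarith [mul_nonneg k5 h8.le]
    _ = _ := by ring

end Pool.Agent.Helper72.OR
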